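import Pool.Agent.Y520.AR.Stm

/-!
# Growth lemmas (GR0, GR1, GR2)
-/

set_option autoImplicit false

namespace Pool.Agent.Y450.AR

open Pool.Agent.Y520.AR

theorem one_le {f : ℝ → ℝ} (hf : TypeR f) {t : ℝ} (ht : 0 ≤ t) : 1 ≤ f t := by
  have := hf.increasing.monotone ht
  rwa [hf.at_zero] at this

/-- propagation along dyadic blocks -/
theorem dy {f : ℝ → ℝ} (hf : TypeR f) (p : ℕ) (M₁ b₀ : ℝ) (hM₁ : 0 < M₁) (hb₀ : 0 < b₀)
    (step : ∀ b, 0 < b → b ≤ b₀ → ∀ M, M₁ ≤ M → b * (M / 2) ^ p ≤ f (M / 2) →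
      b * M ^ p ≤ f M) :
    ∃ c t₀ : ℝ, 0 < c ∧ ∀ t, t₀ ≤ t → c * t ^ p ≤ f t := by
  have hp : 0 < 1 / M₁ ^ p := by positivity
  set b := min b₀ (1 / M₁ ^ p) with hb
  have hb0 : 0 < b := lt_min hb₀ hp
  have hbb : b ≤ b₀ := min_le_left _ _
  have hbM : b * M₁ ^ p ≤ 1 := by
    have h1 : b ≤ 1 / M₁ ^ p := min_le_right _ _
    have h2 : (0 : ℝ) < M₁ ^ p := by positivity
    rwa [le_div_iff₀ h2] at h1
  have base : ∀ t, M₁ / 2 ≤ t → t ≤ M₁ → b * t ^ p ≤ f t := by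
    intro t h1 h2
    have ht : 0 ≤ t := by linarith
    have h3 : t ^ p ≤ M₁ ^ p := pow_le_pow_left₀ ht h2 p
    have h4 : b * t ^ p ≤ b * M₁ ^ p := mul_le_mul_of_nonneg_left h3 hb0.le
    exact (h4.trans hbM).trans (one_le hf ht)
  have key : ∀ k : ℕ, ∀ t, M₁ / 2 ≤ t → t ≤ 2 ^ k * M₁ → b * t ^ p ≤ f t := by
    intro k
    induction k with
    | zero => intro t h1 h2; exact base t h1 (by simpa using h2)
    | succ k ih =>
      intro t h1 h2
      rcases le_total t M₁ with h3 | h3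
      · exact base t h1 h3
      · refine step b hb0 hbb t h3 (ih (t / 2) (by linarith) ?_)
        rw [pow_succ] at h2
        linarith
  refine ⟨b, M₁ / 2, hb0, fun t ht => ?_⟩
  obtain ⟨k, hk⟩ := pow_unbounded_of_one_lt (t / M₁) (by norm_num : (1 : ℝ) < 2)
  refine key k t ht ?_
  rw [div_lt_iff₀ hM₁] at hk
  exact hk.le

theorem t_GR0 : S_GR0 := by
  intro f n hf hn ⟨c, M₀, hc, h⟩
  refine dy hf 2 (max M₀ 1) (min (c / 16) 1) (lt_of_lt_of_le one_pos (le_max_right _ _))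
    (lt_min (by positivity) one_pos) ?_
  intro b hb0 hb M hM hbM
  have hM0 : M₀ ≤ M := (le_max_left _ _).trans hM
  have hM1 : 1 ≤ M := (le_max_right _ _).trans hM
  have hMp : 0 < M := by linarith
  have hb1 : b ≤ c / 16 := hb.trans (min_le_left _ _)
  have hb2 : b ≤ 1 := hb.trans (min_le_right _ _)
  have hfM : 1 ≤ f M := one_le hf hMp.le
  have h1 := h M hM0
  have h2 : (b * (M / 2) ^ 2) ^ 2 ≤ f (M / 2) ^ 2 := pow_le_pow_left₀ (by positivity) hbM 2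
  have h3 : c * (b * (M / 2) ^ 2) ^ 2 * M ^ (n + 1) ≤ f M ^ (n + 1) :=
    le_trans (mul_le_mul_of_nonneg_right (mul_le_mul_of_nonneg_left h2 hc.le) (by positivity)) h1
  rcases hn with rfl | rfl
  · refine le_of_pow_le_pow_left₀ (n := 3) (by norm_num) (by linarith) (le_trans ?_ h3)
    have e1 : (b * M ^ 2) ^ 3 = (b ^ 2 * M ^ 6) * b := by ring
    have e2 : c * (b * (M / 2) ^ 2) ^ 2 * M ^ (2 + 1) = (b ^ 2 * M ^ 6) * (c / 16 * M) := by ring
    rw [e1, e2]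
    refine mul_le_mul_of_nonneg_left ?_ (by positivity)
    nlinarith
  · refine le_of_pow_le_pow_left₀ (n := 4) (by norm_num) (by linarith) (le_trans ?_ h3)
    have e1 : (b * M ^ 2) ^ 4 = (b ^ 2 * M ^ 8) * (b * b) := by ring
    have e2 : c * (b * (M / 2) ^ 2) ^ 2 * M ^ (3 + 1) = (b ^ 2 * M ^ 8) * (c / 16) := by ring
    rw [e1, e2]
    refine mul_le_mul_of_nonneg_left ?_ (by positivity)
    nlinarith

theorem t_GR1 : S_GR1 := by
  intro f n hf hn ⟨c, M₀, hc, h⟩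
  refine dy hf 3 (max M₀ (max 1 (2 ^ 12 / c))) (min (c / 2 ^ 12) 1)
    (lt_of_lt_of_le one_pos ((le_max_left _ _).trans (le_max_right _ _)))
    (lt_min (by positivity) one_pos) ?_
  intro b hb0 hb M hM hbM
  have hM0 : M₀ ≤ M := (le_max_left _ _).trans hM
  have hM1 : 1 ≤ M := ((le_max_left _ _).trans (le_max_right _ _)).trans hM
  have hM2 : 2 ^ 12 / c ≤ M := ((le_max_right _ _).trans (le_max_right _ _)).trans hM
  have hMp : 0 < M := by linarith
  have hb1 : b ≤ c / 2 ^ 12 := hb.trans (min_le_left _ _)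
  have hb2 : b ≤ 1 := hb.trans (min_le_right _ _)
  have hfM : 1 ≤ f M := one_le hf hMp.le
  have h1 := h M hM0
  have h2 : (b * (M / 2) ^ 3) ^ 4 ≤ f (M / 2) ^ 4 := pow_le_pow_left₀ (by positivity) hbM 4
  have h3 : c * M ^ (2 * n) * (b * (M / 2) ^ 3) ^ 4 ≤ f M ^ (2 * n) :=
    le_trans (mul_le_mul_of_nonneg_left h2 (by positivity)) h1
  rcases hn with rfl | rfl
  · refine le_of_pow_le_pow_left₀ (n := 4) (by norm_num) (by linarith) (le_trans ?_ h3)
    have e1 : (b * M ^ 3) ^ 4 = (b ^ 4 * M ^ 12) * 1 := by ring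
    have e2 : c * M ^ (2 * 2) * (b * (M / 2) ^ 3) ^ 4 = (b ^ 4 * M ^ 12) * (c * M ^ 4 / 2 ^ 12) := by
      ring
    rw [e1, e2]
    refine mul_le_mul_of_nonneg_left ?_ (by positivity)
    rw [div_le_iff₀ hc] at hM2
    have h4 : M ≤ M ^ 4 := by
      calc M = M * 1 := by ring
        _ ≤ M * M ^ 3 := mul_le_mul_of_nonneg_left (one_le_pow₀ hM1) hMp.le
        _ = M ^ 4 := by ring
    rw [le_div_iff₀ (by norm_num)]
    nlinarith
  · refine le_of_pow_le_pow_left₀ (n := 6) (by norm_num) (by linarith) (le_trans ?_ h3)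
    have e1 : (b * M ^ 3) ^ 6 = (b ^ 4 * M ^ 18) * (b * b) := by ring
    have e2 : c * M ^ (2 * 3) * (b * (M / 2) ^ 3) ^ 4 = (b ^ 4 * M ^ 18) * (c / 2 ^ 12) := by ring
    rw [e1, e2]
    refine mul_le_mul_of_nonneg_left ?_ (by positivity)
    nlinarith

theorem t_GR2 : S_GR2 := by
  intro f n hf hn ⟨c₁, t₁, hc₁, h'⟩ ⟨c, M₀, hc, h⟩
  refine dy hf 5 (max (max M₀ (2 * t₁)) (max (max 1 (2 ^ 30 / c)) (2 ^ 26 / (c * c₁ ^ 2)))) 1
    (lt_of_lt_of_le one_pos (((le_max_left _ _).trans (le_max_left _ _)).trans (le_max_right _ _)))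
    one_pos ?_
  intro b hb0 _ M hM hbM
  have hM0 : M₀ ≤ M := ((le_max_left _ _).trans (le_max_left _ _)).trans hM
  have hMt : 2 * t₁ ≤ M := ((le_max_right _ _).trans (le_max_left _ _)).trans hM
  have hM1 : 1 ≤ M :=
    (((le_max_left _ _).trans (le_max_left _ _)).trans (le_max_right _ _)).trans hM
  have hM2 : 2 ^ 30 / c ≤ M :=
    (((le_max_right _ _).trans (le_max_left _ _)).trans (le_max_right _ _)).trans hM
  have hM3 : 2 ^ 26 / (c * c₁ ^ 2) ≤ M :=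
    ((le_max_right _ _).trans (le_max_right _ _)).trans hM
  have hMp : 0 < M := by linarith
  have hfM : 1 ≤ f M := one_le hf hMp.le
  have h1 := h M hM0
  rcases hn with rfl | rfl
  · refine le_of_pow_le_pow_left₀ (n := 4) (by norm_num) (by linarith) ?_
    have h2 : (b * (M / 2) ^ 5) ^ 4 ≤ f (M / 2) ^ 4 := pow_le_pow_left₀ (by positivity) hbM 4
    have h3 : (c₁ * (M / 2) ^ 3) ^ 2 ≤ f (M / 2) ^ 2 :=
      pow_le_pow_left₀ (by positivity) (h' (M / 2) (by linarith)) 2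
    have h4 : (b * (M / 2) ^ 5) ^ 4 * (c₁ * (M / 2) ^ 3) ^ 2 ≤ f (M / 2) ^ 6 := by
      have := mul_le_mul h2 h3 (by positivity) (by positivity)
      calc _ ≤ _ := this
        _ = _ := by ring
    have h5 : c * M ^ (2 * 2) * ((b * (M / 2) ^ 5) ^ 4 * (c₁ * (M / 2) ^ 3) ^ 2) ≤
        f M ^ (2 * 2) * M ^ 2 :=
      le_trans (mul_le_mul_of_nonneg_left h4 (by positivity)) h1
    have h6 : (b * M ^ 5) ^ 4 * M ^ 2 ≤ f M ^ (2 * 2) * M ^ 2 := by
      refine le_trans ?_ h5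
      have e1 : (b * M ^ 5) ^ 4 * M ^ 2 = (b ^ 4 * M ^ 22) * 1 := by ring
      have e2 : c * M ^ (2 * 2) * ((b * (M / 2) ^ 5) ^ 4 * (c₁ * (M / 2) ^ 3) ^ 2) =
          (b ^ 4 * M ^ 22) * (c * c₁ ^ 2 * M ^ 8 / 2 ^ 26) := by ring
      rw [e1, e2]
      refine mul_le_mul_of_nonneg_left ?_ (by positivity)
      rw [div_le_iff₀ (by positivity)] at hM3
      have h7 : M ≤ M ^ 8 := by
        calc M = M * 1 := by ring
          _ ≤ M * M ^ 7 := mul_le_mul_of_nonneg_left (one_le_pow₀ hM1) hMp.le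
          _ = M ^ 8 := by ring
      rw [le_div_iff₀ (by norm_num)]
      have h8 : c * c₁ ^ 2 * M ≤ c * c₁ ^ 2 * M ^ 8 := mul_le_mul_of_nonneg_left h7 (by positivity)
      linarith
    exact le_of_mul_le_mul_right h6 (by positivity)
  · refine le_of_pow_le_pow_left₀ (n := 6) (by norm_num) (by linarith) ?_
    have h2 : (b * (M / 2) ^ 5) ^ 6 ≤ f (M / 2) ^ 6 := pow_le_pow_left₀ (by positivity) hbM 6
    have h5 : c * M ^ (2 * 3) * (b * (M / 2) ^ 5) ^ 6 ≤ f M ^ (2 * 3) * M ^ 2 :=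
      le_trans (mul_le_mul_of_nonneg_left h2 (by positivity)) h1
    have h6 : (b * M ^ 5) ^ 6 * M ^ 2 ≤ f M ^ (2 * 3) * M ^ 2 := by
      refine le_trans ?_ h5
      have e1 : (b * M ^ 5) ^ 6 * M ^ 2 = (b ^ 6 * M ^ 32) * 1 := by ring
      have e2 : c * M ^ (2 * 3) * (b * (M / 2) ^ 5) ^ 6 =
          (b ^ 6 * M ^ 32) * (c * M ^ 4 / 2 ^ 30) := by ring
      rw [e1, e2]
      refine mul_le_mul_of_nonneg_left ?_ (by positivity)
      rw [div_le_iff₀ hc] at hM2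
      have h7 : M ≤ M ^ 4 := by
        calc M = M * 1 := by ring
          _ ≤ M * M ^ 3 := mul_le_mul_of_nonneg_left (one_le_pow₀ hM1) hMp.le
          _ = M ^ 4 := by ring
      rw [le_div_iff₀ (by norm_num)]
      have h8 : c * M ≤ c * M ^ 4 := mul_le_mul_of_nonneg_left h7 hc.le
      linarith
    exact le_of_mul_le_mul_right h6 (by positivity)

end Pool.Agent.Y450.AR
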