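import Pool.Agent.Y450.AR.Grow

/-!
# The pointwise inequality (REAL)
-/

set_option autoImplicit false

open MeasureTheory Set Filter Topology
open scoped ContDiff

namespace Pool.Agent.Y450.AR

open Pool.Agent.Y520.AR

section
variable {f : ℝ → ℝ} (hf : TypeR f)
include hf

theorem dcont : Continuous (deriv f) := hf.smooth.continuous_deriv (by simp)

theorem ddiff : Differentiable ℝ f := hf.smooth.differentiable (by simp)

theorem dnonneg (t : ℝ) : 0 ≤ deriv f t := hf.increasing.monotone.deriv_nonneg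

theorem dmono : Monotone (deriv f) := by
  have h := hf.convex.monotoneOn_deriv (fun x _ => ddiff hf x)
  exact monotoneOn_univ.1 h

theorem fsub (s t : ℝ) : ∫ x in s..t, deriv f x = f t - f s :=
  intervalIntegral.integral_deriv_eq_sub' f rfl (fun x _ => ddiff hf x) (dcont hf).continuousOn

theorem fsub_le {t : ℝ} (ht : 0 ≤ t) : f t - 1 ≤ t * deriv f t := by
  have h1 : f t - f 0 = ∫ x in (0:ℝ)..t, deriv f x := (fsub hf 0 t).symm
  rw [hf.at_zero] at h1
  rw [h1]
  have h2 : ∫ x in (0:ℝ)..t, deriv f x ≤ ∫ x in (0:ℝ)..t, deriv f t :=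
    intervalIntegral.integral_mono_on ht ((dcont hf).intervalIntegrable _ _)
      (continuous_const.intervalIntegrable _ _) (fun x hx => dmono hf hx.2)
  simpa using h2

theorem dtend : Tendsto (deriv f) atTop atTop := by
  have h1 : ∀ t, 1 ≤ t → f t / t ≤ deriv f t + 1 := by
    intro t ht
    have h := fsub_le hf (by linarith : (0:ℝ) ≤ t)
    rw [div_le_iff₀ (by linarith)]
    nlinarith
  have h2 : Tendsto (fun t => deriv f t + 1) atTop atTop :=
    tendsto_atTop_mono' atTop ((eventually_ge_atTop 1).mono h1) hf.superlinear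
  have h3 := tendsto_atTop_add_const_right atTop (-1) h2
  simpa using h3

end

theorem pp_cont {y : ℝ → ℝ} (hy : Continuous y) : Continuous (PP y) :=
  intervalIntegral.continuous_primitive (fun a b => hy.intervalIntegrable a b) 0

theorem pp_nonneg {y : ℝ → ℝ} (hy : ∀ s, 0 ≤ y s) {t : ℝ} (ht : 0 ≤ t) : 0 ≤ PP y t :=
  intervalIntegral.integral_nonneg ht (fun u _ => hy u)

/-- the primitive of `y` is at most `t` times the bound of `y` -/
theorem pp_le {y : ℝ → ℝ} (hy : Continuous y) {t b : ℝ} (ht : 0 ≤ t)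
    (h : ∀ s, 0 ≤ s → s ≤ t → y s ≤ b) : PP y t ≤ t * b := by
  have h2 : ∫ x in (0:ℝ)..t, y x ≤ ∫ x in (0:ℝ)..t, b :=
    intervalIntegral.integral_mono_on ht (hy.intervalIntegrable _ _)
      (continuous_const.intervalIntegrable _ _) (fun x hx => h x hx.1 hx.2)
  simpa [PP] using h2

/-- comparison of primitives with a weight -/
theorem pp_mul_le {y z : ℝ → ℝ} (hy : Continuous y) (hz : Continuous z) {s t b : ℝ}
    (hst : s ≤ t) (h : ∀ x, s ≤ x → x ≤ t → z x ≤ b * y x) :
    PP z t - PP z s ≤ b * (PP y t - PP y s) := by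
  have e1 : PP z t - PP z s = ∫ x in s..t, z x := by
    unfold PP
    rw [intervalIntegral.integral_interval_sub_left] <;> exact hz.intervalIntegrable _ _
  have e2 : PP y t - PP y s = ∫ x in s..t, y x := by
    unfold PP
    rw [intervalIntegral.integral_interval_sub_left] <;> exact hy.intervalIntegrable _ _
  rw [e1, e2, ← intervalIntegral.integral_const_mul]
  exact intervalIntegral.integral_mono_on hst (hz.intervalIntegrable _ _)
    ((continuous_const.mul hy).intervalIntegrable _ _) (fun x hx => h x hx.1 hx.2)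

theorem pp_zero (y : ℝ → ℝ) : PP y 0 = 0 := by simp [PP]

theorem pp_mono {y : ℝ → ℝ} (hyc : Continuous y) (hy : ∀ s, 0 ≤ y s) {s t : ℝ} (hst : s ≤ t) :
    PP y s ≤ PP y t := by
  have := pp_mul_le (y := y) (z := fun _ => 0) (b := 1) hyc continuous_const hst
    (fun x _ _ => by simpa using hy x)
  have e : ∀ t, PP (fun _ => (0:ℝ)) t = 0 := fun t => by simp [PP]
  rw [e, e] at this
  linarith

theorem t_REAL : S_REAL := by
  intro f j C hf hj hC ⟨c, t₀, hc, hg⟩
  have hjr : (j : ℝ) ≤ 3 := by exact_mod_cast hj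
  have hj0 : (0 : ℝ) ≤ (j : ℝ) := Nat.cast_nonneg j
  obtain ⟨al, hal⟩ : ∃ al : ℝ, al = (j / 4 : ℝ) := ⟨_, rfl⟩
  rw [← hal]
  have al0 : 0 ≤ al := by rw [hal]; positivity
  have al1 : al < 1 := by rw [hal]; linarith
  have al2 : 0 < 1 - al := by linarith
  set a : ℝ → ℝ := deriv f with ha
  have a_c : Continuous a := dcont hf
  have a_0 : ∀ t, 0 ≤ a t := dnonneg hf
  have a_m : Monotone a := dmono hf
  have a_t : Tendsto a atTop atTop := dtend hf
  set y : ℝ → ℝ := fun s => a s ^ al with hy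
  have y_c : Continuous y := a_c.rpow_const (fun x => Or.inr al0)
  have y_0 : ∀ s, 0 ≤ y s := fun s => Real.rpow_nonneg (a_0 s) _
  have y_m : Monotone y := fun s t h => Real.rpow_le_rpow (a_0 s) (a_m h) al0
  set z : ℝ → ℝ := fun s => y s ^ 2 with hz
  have z_c : Continuous z := y_c.pow 2
  have z_0 : ∀ s, 0 ≤ z s := fun s => sq_nonneg _
  have z_e : (fun s => (a s ^ al) ^ 2) = z := rfl
  have split : ∀ x : ℝ, 0 ≤ x → x = x ^ (1 - al) * x ^ al := by
    intro x hx
    rw [← Real.rpow_add_of_nonneg hx al2.le al0]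
    simp
  -- the quantities
  have psi_c := pp_cont y_c
  have g_c := pp_cont z_c
  have G_c := pp_cont g_c
  -- (i)
  have e_i : ∀ t, 0 ≤ t → PP z t ≤ y t * PP y t := by
    intro t ht
    have := pp_mul_le (y := y) (z := z) (b := y t) y_c z_c ht (fun x _ hx => by
      have h1 : y x ^ 2 = y x * y x := sq _
      have h2 := mul_le_mul_of_nonneg_right (y_m hx) (y_0 x)
      simp only [hz]
      rw [h1]; exact h2)
    rw [pp_zero, pp_zero] at this
    simpa using this
  -- (ii)
  have e_ii : ∀ s t, 0 ≤ s → s ≤ t →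
      f t - 1 ≤ a t ^ (1 - al) * (PP y t - PP y s) + a s ^ (1 - al) * PP y s := by
    intro s t hs hst
    have h1 := pp_mul_le (y := y) (z := a) (b := a t ^ (1 - al)) y_c a_c hst (fun x _ hx => by
      have h := split (a x) (a_0 x)
      have h2 := mul_le_mul_of_nonneg_right
        (Real.rpow_le_rpow (a_0 x) (a_m hx) al2.le) (y_0 x)
      calc a x = a x ^ (1 - al) * a x ^ al := h
        _ ≤ _ := h2)
    have h2 := pp_mul_le (y := y) (z := a) (b := a s ^ (1 - al)) y_c a_c hs (fun x _ hx => by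
      have h := split (a x) (a_0 x)
      have h2 := mul_le_mul_of_nonneg_right
        (Real.rpow_le_rpow (a_0 x) (a_m hx) al2.le) (y_0 x)
      calc a x = a x ^ (1 - al) * a x ^ al := h
        _ ≤ _ := h2)
    rw [pp_zero, pp_zero] at h2
    have h3 : PP a t = f t - 1 := by
      have := fsub hf 0 t
      rw [hf.at_zero] at this
      exact this
    linarith
  -- growth
  obtain ⟨D, hD0, hD⟩ : ∃ D : ℝ, 0 ≤ D ∧ ∀ t, max t₀ 0 ≤ t → t ≤ D * a t ^ (1 - al) := by
    refine ⟨(1 / c) ^ (1 / 4 : ℝ), by positivity, fun t ht => ?_⟩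
    have ht1 : t₀ ≤ t := (le_max_left _ _).trans ht
    have ht2 : 0 ≤ t := (le_max_right _ _).trans ht
    have h1 : t ^ 4 ≤ (1 / c) * a t ^ (4 - j) := by
      have := hg t ht1
      rw [one_div, inv_mul_eq_div, le_div_iff₀ hc]
      linarith
    have h2 : t = (t ^ 4) ^ (1 / 4 : ℝ) := by
      rw [← Real.rpow_natCast, ← Real.rpow_mul ht2]
      norm_num
    have h3 : a t ^ (1 - al) = (a t ^ (4 - j)) ^ (1 / 4 : ℝ) := by
      rw [← Real.rpow_natCast, ← Real.rpow_mul (a_0 t)]
      congr 1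
      rw [Nat.cast_sub (by omega), hal]
      push_cast
      ring
    rw [h3, ← Real.mul_rpow (by positivity) (pow_nonneg (a_0 t) _)]
    calc t = (t ^ 4) ^ (1 / 4 : ℝ) := h2
      _ ≤ _ := Real.rpow_le_rpow (by positivity) h1 (by norm_num)
  -- `psi` tends to infinity
  have a_ev1 : ∀ᶠ t in atTop, 1 ≤ a t := a_t.eventually_ge_atTop 1
  obtain ⟨r, hr⟩ := (a_ev1.and (eventually_ge_atTop 0)).exists
  have psi_lb : ∀ t, r ≤ t → t - r ≤ PP y t := by
    intro t ht
    have h1 := pp_mul_le (y := y) (z := fun _ => 1) (b := 1) y_c continuous_const ht (fun x hx _ => by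
      have h := Real.one_le_rpow (hr.1.trans (a_m hx)) al0
      simpa using h)
    have e : ∀ t, PP (fun _ => (1:ℝ)) t = t := fun t => by simp [PP]
    rw [e, e] at h1
    have h2 := pp_nonneg y_0 hr.2
    linarith
  set s₀ := r + (4 + 4 * C * D) with hs0
  have hCD : 0 ≤ C * D := mul_nonneg hC hD0
  have hs0r : r ≤ s₀ := by rw [hs0]; nlinarith
  have hs00 : 0 ≤ s₀ := hr.2.trans hs0r
  have psi0 : 4 + 4 * C * D ≤ PP y s₀ := by
    have := psi_lb s₀ hs0r
    rw [hs0] at this ⊢
    linarith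
  -- `F` is large
  have a_ev2 : ∀ᶠ t in atTop, a s₀ ^ (1 - al) ≤ a t ^ (1 - al) / 2 := by
    have h1 : Tendsto (fun t => a t ^ (1 - al)) atTop atTop :=
      (tendsto_rpow_atTop al2).comp a_t
    filter_upwards [h1.eventually_ge_atTop (2 * a s₀ ^ (1 - al))] with t ht
    linarith
  obtain ⟨t₁, ht₁⟩ := ((a_ev1.and a_ev2).and
    ((eventually_ge_atTop (max t₀ 0)).and (eventually_ge_atTop s₀))).exists_forall_of_atTop
  -- the inequality for large `t`
  have big : ∀ t, t₁ ≤ t → y t * (f t - 1) ≤ a t * PP y t ^ 2 - f t * PP z t -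
      C * (PP y t ^ 2 + PP (PP z) t) := by
    intro t ht
    obtain ⟨⟨F1, F2⟩, F3, F4⟩ := ht₁ t ht
    have t0 : 0 ≤ t := (le_max_right _ _).trans F3
    have tD := hD t F3
    have hpsi : 0 ≤ PP y t := pp_nonneg y_0 t0
    have hpsi0 : 0 ≤ PP y s₀ := pp_nonneg y_0 hs00
    have hg0 : 0 ≤ PP z t := pp_nonneg z_0 t0
    have hy0 := y_0 t
    have hx0 : 0 ≤ a t ^ (1 - al) := Real.rpow_nonneg (a_0 t) _
    have hF : a t = a t ^ (1 - al) * y t := split (a t) (a_0 t)
    have hft0 : 0 ≤ f t - 1 := by linarith [one_le hf t0]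
    have h1 := e_i t t0
    have h2 := e_ii s₀ t hs00 F4
    have h3 := e_ii 0 t le_rfl t0
    rw [pp_zero] at h3
    -- psi <= t y(t)
    have h4 : PP y t ≤ t * y t := pp_le y_c t0 (fun s _ hs => y_m hs)
    have h5 : PP (PP z) t ≤ t * PP z t := pp_le g_c t0 (fun s hs hst => pp_mono z_c z_0 hst)
    -- t * y t <= D * F
    have h6 : t * y t ≤ D * a t := by
      have := mul_le_mul_of_nonneg_right tD hy0
      calc _ ≤ _ := this
        _ = D * (a t ^ (1 - al) * y t) := by ring
        _ = _ := by rw [← hF]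
    have h7 : PP y t ^ 2 ≤ D * a t * PP y t := by
      calc PP y t ^ 2 = PP y t * PP y t := sq _
        _ ≤ (D * a t) * PP y t := mul_le_mul_of_nonneg_right (h4.trans h6) hpsi
    have h8 : PP (PP z) t ≤ D * a t * PP y t := by
      calc _ ≤ t * PP z t := h5
        _ ≤ t * (y t * PP y t) := mul_le_mul_of_nonneg_left h1 t0
        _ = (t * y t) * PP y t := by ring
        _ ≤ _ := mul_le_mul_of_nonneg_right h6 hpsi
    -- g <= F psi
    have h9 : PP z t ≤ a t * PP y t := by
      refine h1.trans (mul_le_mul_of_nonneg_right ?_ hpsi)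
      have : y t ≤ a t ^ (1 : ℝ) := Real.rpow_le_rpow_of_exponent_le F1 al1.le
      simpa using this
    -- (f - 1) g
    have h10 : (f t - 1) * PP z t ≤ a t * PP y t ^ 2 - a t * PP y t * PP y s₀ / 2 := by
      have A1 : (f t - 1) * PP z t ≤ (f t - 1) * (y t * PP y t) :=
        mul_le_mul_of_nonneg_left h1 hft0
      have A2 : (f t - 1) * (y t * PP y t) ≤
          (a t ^ (1 - al) * (PP y t - PP y s₀) + a t ^ (1 - al) / 2 * PP y s₀) *
            (y t * PP y t) := by
        refine mul_le_mul_of_nonneg_right (h2.trans ?_) (mul_nonneg hy0 hpsi)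
        have := mul_le_mul_of_nonneg_right F2 hpsi0
        linarith
      calc _ ≤ _ := A1.trans A2
        _ = (a t ^ (1 - al) * y t) * PP y t ^ 2 -
            (a t ^ (1 - al) * y t) * PP y t * PP y s₀ / 2 := by ring
        _ = _ := by rw [← hF]
    -- the left side
    have h11 : y t * (f t - 1) ≤ a t * PP y t := by
      calc y t * (f t - 1) ≤ y t * (a t ^ (1 - al) * PP y t) := by
            refine mul_le_mul_of_nonneg_left ?_ hy0
            simpa using h3
        _ = (a t ^ (1 - al) * y t) * PP y t := by ring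
        _ = _ := by rw [← hF]
    have hFp : 0 ≤ a t * PP y t := mul_nonneg (a_0 t) hpsi
    have h12 : C * (PP y t ^ 2 + PP (PP z) t) ≤ C * (2 * D * (a t * PP y t)) :=
      mul_le_mul_of_nonneg_left (by linarith) hC
    have h13 : (4 + 4 * C * D) * (a t * PP y t) ≤ PP y s₀ * (a t * PP y t) :=
      mul_le_mul_of_nonneg_right psi0 hFp
    have h14 : f t * PP z t = (f t - 1) * PP z t + PP z t := by ring
    rw [h14]
    nlinarith
  -- the compact part
  let E : ℝ → ℝ := fun t => y t * (f t - 1) - (a t * PP y t ^ 2 - f t * PP z t -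
      C * (PP y t ^ 2 + PP (PP z) t))
  have E_c : Continuous E := by
    have f_c : Continuous f := hf.smooth.continuous
    exact (y_c.mul (f_c.sub continuous_const)).sub
      (((a_c.mul (psi_c.pow 2)).sub (f_c.mul g_c)).sub
        (continuous_const.mul ((psi_c.pow 2).add G_c)))
  obtain ⟨K, hK⟩ := (isCompact_Icc (a := (0:ℝ)) (b := t₁)).exists_bound_of_continuousOn
    E_c.continuousOn
  refine ⟨max K 0, le_max_right _ _, fun t ht => ?_⟩
  show y t * (f t - 1) - max K 0 ≤ a t * PP y t ^ 2 - f t * PP z t -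
      C * (PP y t ^ 2 + PP (PP z) t)
  rcases le_total t t₁ with h | h
  · have h1 := hK t ⟨ht, h⟩
    have h2 : E t ≤ K := (le_abs_self _).trans h1
    have h3 : K ≤ max K 0 := le_max_left _ _
    have h4 : E t = y t * (f t - 1) - (a t * PP y t ^ 2 - f t * PP z t -
      C * (PP y t ^ 2 + PP (PP z) t)) := rfl
    linarith
  · have h1 := big t h
    have h3 : 0 ≤ max K 0 := le_max_right _ _
    linarith

end Pool.Agent.Y450.AR
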